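import Pool.Agent.Y223.G.Stm4
import Pool.Agent.Y429.G.RPrin

/-!
# The ideal of the fixed points is principal at the points over the prime outside the vertex
(part G4-RPRIN0 of project G of helper223)
-/

set_option autoImplicit false

namespace Pool.Agent.Y496.G

open IsLocalRing Pool.Agent.W418.LU2 Pool.Agent.Y223.G Pool.Agent.Y223.G.RPrin

/-- The ideal of the fixed points is principal at the points over `𝔓` outside the vertex. -/
theorem t_RPRIN0 : S_RSTAB0 → S_RPRIN0 := by
  intro hST k O K _ _ _ _ _ _ _ _ _ p τ t 𝔓 l hW C hC Q hQ hPQ hv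
  obtain ⟨R, hR⟩ : ∃ R, R = RR k τ p 𝔓 l C := ⟨_, rfl⟩
  have hst := hST k O K p τ t 𝔓 l hW C hC
  have hp2 : 2 ≤ p := hW.pp.two_le
  have hp0 : 0 < p := by omega
  have ht1 : hm (-1) 1 ∈ RR k τ p 𝔓 l C := tinv_mem
  have h0 : ∀ o : O, hm 0 (algebraMap O K o) ∈ RR k τ p 𝔓 l C :=
    fun o => zero_mem hp0 (C.algebraMap_mem o)
  have hq := q0_prime (RR k τ p 𝔓 l C) Q hQ h0
  have : 𝔓.IsPrime := hW.mx.isPrime
  -- some generator of positive degree is not in `Q`
  have hgen : (∃ e ∈ 𝔓, ¬ InQ _ Q (hm 1 (algebraMap O K e))) ∨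
      (∃ (a : ℕ) (c : K), 1 ≤ a ∧ a < p ∧ c ∈ C ∧ ¬ InQ _ Q (hm (wt l a) ((df τ)^[a] c))) := by
    by_contra hcon
    push Not at hcon
    obtain ⟨hc1, hc2⟩ := hcon
    obtain ⟨e, η, he, he0, hn⟩ := hv
    apply hn
    have h1 := pos_mem (Q := Q) (R := RR k τ p 𝔓 l C) rfl ?_ (hm e η) he e (by exact_mod_cast he0)
    · rw [coeff_hm_same] at h1
      exact h1.2
    · rintro s ((rfl | ⟨e, he, rfl⟩) | ⟨a, c, hc, ha, rfl⟩)
      · exact ⟨-1, 1, rfl, fun h => by omega⟩
      · exact ⟨1, _, rfl, fun _ => hc1 e he⟩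
      · refine ⟨wt l a, _, rfl, fun h => ?_⟩
        have h' : 0 < wt l a := by exact_mod_cast h
        exact hc2 a c (wt_pos h') ha hc
  by_cases hT : InQ _ Q (hm (-1) (1 : K))
  · -- `T⁻¹` in `Q`
    have hle : 𝔓 ≤ q0 (RR k τ p 𝔓 l C) Q O h0 := fun e he => hPQ e he
    have hqP : 𝔓 = q0 (RR k τ p 𝔓 l C) Q O h0 := hW.mx.eq_of_le hq.ne_top hle
    -- it is enough to find `b`
    suffices h : ∃ b ∈ RR k τ p 𝔓 l C, ¬ InQ _ Q (hm l 1 * (tl τ b - b)) by
      obtain ⟨b, hb, hb2⟩ := h
      refine ⟨b, hb, fun c hc => ⟨hm l 1 * (tl τ b - b), (hst b hb).2, fun h => hb2 ⟨_, h⟩,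
        hm l 1 * (tl τ c - c), (hst c hc).2, by ring⟩⟩
    rcases hgen with ⟨e, he, hne⟩ | ⟨a, c, ha1, hap, hc, hne⟩
    · obtain ⟨π, hπ, hπ2⟩ := hW.un
      refine ⟨hm 1 (algebraMap O K π), e_mem hπ, ?_⟩
      rw [tl_hm_sub, hm_mul, one_mul]
      have hdf : df τ (algebraMap O K π) = algebraMap O K (t π - π) := by
        rw [map_sub, ← hW.com]; rfl
      rw [hdf]
      intro hg
      apply hne
      obtain ⟨v, y, hy, hvy⟩ := Ideal.exists_mul_add_mem_pow_succ hW.ne (i := l + 1) (t π - π)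
        (e ^ (l + 1)) (hW.dv π) hπ2 (Ideal.pow_mem_pow he _)
      refine inQ_pow hQ (e_mem he) (n := l + 1) ?_
      have h1 := inQ_mul (h0 v) hg
      have h2 := inQ_mul (pow_mem (k := k) (τ := τ) (l := l) (C := C) hp0 _ y hy) hT
      have h3 := inQ_add h1 h2
      rw [hm_mul, hm_mul, mul_one] at h3
      rw [hm_pow]
      have e1 : (0 : ℤ) + (l + 1) = (l + 1 : ℕ) * 1 := by push_cast; ring
      have e2 : ((l + 1 + 1 : ℕ) : ℤ) + -1 = (l + 1 : ℕ) * 1 := by push_cast; ring
      rw [e1, e2, ← hm_add, ← map_mul, ← map_add, mul_comm v, hvy, map_pow] at h3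
      exact h3
    · by_cases hl : l = 0
      · subst hl
        by_cases ha : a = 1
        · subst ha
          have hpq : ¬ InQ _ Q (hm 0 (algebraMap O K (p : O))) := by
            intro h
            have h1 : (p : O) ∈ q0 (RR k τ p 𝔓 0 C) Q O h0 := h
            rw [← hqP] at h1
            exact hW.p0 rfl h1
          refine ⟨hm 1 (-∑ m ∈ Finset.range (p - 1), (p.choose (m + 2)) • (df τ)^[m + 1] c), ?_, ?_⟩
          · let N : AddSubgroup K :=
              { carrier := {x | hm 1 x ∈ RR k τ p 𝔓 0 C}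
                add_mem' := fun {x y} hx hy => by
                  change hm 1 (x + y) ∈ RR k τ p 𝔓 0 C
                  rw [hm_add]; exact Subalgebra.add_mem _ hx hy
                zero_mem' := by
                  change hm 1 (0 : K) ∈ RR k τ p 𝔓 0 C
                  rw [hm_zero]; exact Subalgebra.zero_mem _
                neg_mem' := fun {x} hx => by
                  change hm 1 (-x) ∈ RR k τ p 𝔓 0 C
                  rw [hm_neg]; exact Subalgebra.neg_mem _ hx }
            refine N.neg_mem (N.sum_mem fun m hm' => N.nsmul_mem ?_ _)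
            have h1 : m + 1 < p := by
              have := Finset.mem_range.1 hm'
              omega
            have h2 := gen_mem (k := k) (τ := τ) (𝔓 := 𝔓) (l := 0) h1 hc
            have h3 : wt 0 (m + 1) = 1 := by unfold wt; simp
            rw [h3] at h2
            exact h2
          · rw [tl_hm_sub, ← binom hp2 c (hW.ord c), hm_mul, one_mul]
            intro h
            have e1 : hm (((0 : ℕ) : ℤ) + 1) ((p : K) * df τ c) =
                hm 0 (algebraMap O K (p : O)) * hm (wt 0 1 : ℕ) ((df τ)^[1] c) := by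
              rw [hm_mul, map_natCast]; rfl
            rw [e1] at h
            rcases inQ_or hQ (h0 _) (gen_mem hap hc) h with h1 | h1
            · exact hpq h1
            · exact hne h1
        · refine ⟨hm (wt 0 (a - 1) : ℕ) ((df τ)^[a - 1] c), gen_mem (by omega) hc, ?_⟩
          rw [tl_hm_sub, hm_mul, one_mul, ← Function.iterate_succ_apply' (df τ)]
          have e1 : (a - 1).succ = a := by omega
          have e2 : ((0 : ℕ) : ℤ) + (wt 0 (a - 1) : ℕ) = (wt 0 a : ℕ) := by
            have : wt 0 (a - 1) = wt 0 a := by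
              unfold wt
              rw [if_pos rfl, if_pos rfl]; omega
            rw [this]; simp
          rw [e1, e2]
          exact hne
      · refine ⟨hm (wt l (a - 1) : ℕ) ((df τ)^[a - 1] c), gen_mem (by omega) hc, ?_⟩
        rw [tl_hm_sub, hm_mul, one_mul, ← Function.iterate_succ_apply' (df τ)]
        have e1 : (a - 1).succ = a := by omega
        have e2 : (l : ℤ) + (wt l (a - 1) : ℕ) = (wt l a : ℕ) := by
          have : l + wt l (a - 1) = wt l a := by
            unfold wt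
            rw [if_neg hl, if_neg hl]
            obtain ⟨b, rfl⟩ : ∃ b, a = b + 1 := ⟨a - 1, by omega⟩
            rw [Nat.add_sub_cancel]; ring
          rw [← this]; push_cast; ring
        rw [e1, e2]
        exact hne
  · -- `T⁻¹` not in `Q`
    have key : ∃ c ∈ C, ¬ InQ _ Q (hm 0 (df τ c)) := by
      by_contra hcon
      push Not at hcon
      have hdiv : ∀ (n : ℕ) (x : K), hm n x ∈ RR k τ p 𝔓 l C → InQ _ Q (hm 0 x) →
          InQ _ Q (hm n x) := by
        intro n x hx h
        have h1 : hm (-1) 1 ^ n * hm n x = hm 0 x := by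
          rw [hm_pow, hm_mul, one_pow, one_mul]
          congr 1; ring
        rw [← h1] at h
        rcases inQ_or hQ (Subalgebra.pow_mem _ ht1 n) hx h with h2 | h2
        · exact absurd (inQ_pow hQ ht1 h2) hT
        · exact h2
      rcases hgen with ⟨e, he, hne⟩ | ⟨a, c, ha1, hap, hc, hne⟩
      · apply hne
        exact hdiv 1 _ (e_mem he) (hPQ e he)
      · apply hne
        refine hdiv _ _ (gen_mem hap hc) ?_
        obtain ⟨b, rfl⟩ : ∃ b, a = b + 1 := ⟨a - 1, by omega⟩
        rw [Function.iterate_succ_apply' (df τ)]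
        exact hcon _ (df_mem hC hc b)
    obtain ⟨c₀, hc₀, hne⟩ := key
    have hb : hm 0 c₀ ∈ RR k τ p 𝔓 l C := zero_mem hp0 hc₀
    have hs : tl τ (hm 0 c₀) - hm 0 c₀ ∈ RR k τ p 𝔓 l C :=
      Subalgebra.sub_mem _ (hst _ hb).1 hb
    refine ⟨hm 0 c₀, hb, fun c hc => ⟨_, hs, fun h => hne ?_, tl τ c - c,
      Subalgebra.sub_mem _ (hst _ hc).1 hc, by ring⟩⟩
    rw [← tl_hm_sub]
    exact ⟨hs, h⟩

end Pool.Agent.Y496.G
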